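import Pool.Agent.Q20.ML.Alg

set_option autoImplicit false

/-!
# An algorithm for minimum-length multiples

For a nonmonic irreducible integer polynomial `P` of positive degree all of whose complex zeros lie in
the closed unit disc we give an explicit bound for the degree of a minimum-length multiple and an
executable function `algo` on coefficient lists which finds one.
-/

namespace Pool.Agent.Results.MP_e7878a_nt.Algorithm

open Polynomial Pool.Agent.Q20.ML

/-- the class `C` of the problem: irreducible over the integers, of positive degree, leading
coefficient different from `1` and `-1`, all complex zeros of absolute value at most one -/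
def InClass (P : ℤ[X]) : Prop :=
  Irreducible P ∧ 0 < P.natDegree ∧ P.leadingCoeff ≠ 1 ∧ P.leadingCoeff ≠ -1 ∧ ∀ z : ℂ, aeval z P = 0 → ‖z‖ ≤ 1

lemma InClass.lead {P : ℤ[X]} (h : InClass P) : ¬ IsUnit P.leadingCoeff := by
  intro hu
  rcases Int.isUnit_iff.1 hu with h1 | h1
  · exact h.2.2.1 h1
  · exact h.2.2.2.1 h1

/-- (1) `algo p` is the coefficient list of a minimum-length multiple of the polynomial with
coefficient list `p`, for every list `p` with last entry nonzero whose polynomial is in the class.
(2) Every minimum-length multiple with nonzero constant term has degree at most the explicit bound.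
(3) There is a minimum-length multiple with nonzero constant term. -/
theorem result :
    (∀ p : List ℤ, p.getD (p.length - 1) 0 ≠ 0 → InClass (poly p) → IsMin (poly p) (poly (algo p))) ∧
    (∀ P F : ℤ[X], InClass P → IsMin P F → F.coeff 0 ≠ 0 →
      F.natDegree ≤ bnd P.natDegree P.leadingCoeff.natAbs (len P) (len P)) ∧
    (∀ P : ℤ[X], InClass P → ∃ F : ℤ[X], IsMin P F ∧ F.coeff 0 ≠ 0) := by
  refine ⟨?_, ?_, ?_⟩
  · intro p hlast h
    exact algo_correct p hlast h.1 h.2.1.ne' h.lead h.2.2.2.2
  · intro P F h hF hF0
    exact degree_bound h.1 h.2.1.ne' h.lead h.2.2.2.2 hF hF0 (hF.2.2 P h.1.ne_zero dvd_rfl)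
  · intro P h
    exact exists_min h.1 h.lead

end Pool.Agent.Results.MP_e7878a_nt.Algorithm
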